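import Pool.Agent.helper83.OD.Spec

/-!
# Project od, module JP1: the terms of the first type
-/

set_option autoImplicit false

open Finset PowerSeries

noncomputable section

namespace Pool.Agent.OD

open Pool.Agent.EP

theorem JP1_ac (N : ℕ) (h : ac (N : ℤ) ≠ 0) :
    ∃ s : ℕ, Odd (Fintype.card (Nat.Partition s)) ∧ 24 * s = N + 1 := by
  unfold ac at h
  split_ifs at h with hc
  · refine ⟨(((N : ℤ) + 1) / 24).toNat, ?_, by omega⟩
    unfold pp at h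
    exact (ZMod.natCast_ne_zero_iff_odd).1 h
  · exact absurd rfl h

theorem JP1 : JP1_stmt := by
  intro p m hp hp24 hm hpm h
  unfold JG at h
  obtain ⟨d, hd, hne⟩ := Finset.exists_ne_zero_of_sum_ne_zero h
  simp only [Finset.mem_filter, Nat.mem_divisors, Int.natCast_dvd_natCast] at hd
  obtain ⟨⟨hd1, -⟩, hd2⟩ := hd
  have hpd : ¬ p ∣ d := fun hh => hpm (dvd_trans hh hd2)
  have hcop : Nat.Coprime d p := ((Nat.Prime.coprime_iff_not_dvd hp).2 hpd).symm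
  have hd7 : d ∣ 7 := hcop.dvd_of_dvd_mul_right hd1
  rcases (Nat.dvd_prime (by norm_num)).1 hd7 with h1 | h7
  · subst h1
    have e1 : (((7 * p : ℕ) : ℤ) * (m : ℤ) / ((1 : ℕ) : ℤ) ^ 2) = ((7 * p * m : ℕ) : ℤ) := by
      push_cast
      simp
    rw [e1] at hne
    obtain ⟨s, hs1, hs2⟩ := JP1_ac _ hne
    exact ⟨s, hs1, Or.inl hs2⟩
  · subst h7
    obtain ⟨m', rfl⟩ := hd2
    have e1 : (((7 * p : ℕ) : ℤ) * ((7 * m' : ℕ) : ℤ) / ((7 : ℕ) : ℤ) ^ 2) = ((p * m' : ℕ) : ℤ) := by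
      have e2 : ((7 * p : ℕ) : ℤ) * ((7 * m' : ℕ) : ℤ) = ((p * m' : ℕ) : ℤ) * ((7 : ℕ) : ℤ) ^ 2 := by
        push_cast
        ring
      rw [e2]
      exact Int.mul_ediv_cancel _ (by norm_num)
    rw [e1] at hne
    obtain ⟨s, hs1, hs2⟩ := JP1_ac _ hne
    refine ⟨s, hs1, Or.inr ?_⟩
    rw [hs2]
    ring

end Pool.Agent.OD
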